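import Pool.Agent.Helper14K9.SO.St

/-! # Project SO, leaf BALL: the definable set of a good element is the valuation ring (helper90) -/

set_option autoImplicit false

namespace Pool.Agent.Helper90K9.SO

open Pool.Agent.Helper14K9.SO
open Pool.Agent.Y924.UF

namespace BallL

/-- membership in the valuation ring by the order -/
theorem mem_OO_order {p : ℕ} [Fact p.Prime] {z : LaurentSeries (ZMod p)} (hz : z ≠ 0) :
    z ∈ OO p ↔ 0 ≤ HahnSeries.order z := by
  rw [Pool.Agent.Y155.UF.mem_OO]
  constructor
  · intro h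
    by_contra hcon
    exact HahnSeries.coeff_order_eq_zero.not.2 hz (h _ (not_le.1 hcon))
  · intro h n hn
    exact HahnSeries.coeff_eq_zero_of_lt_order (hn.trans_le h)

end BallL

open BallL

theorem ball : S_ROOT → S_BALL := by
  intro hR p _ τ hG h1 hmul
  have hτ := Pool.Agent.Y155.UF.good_ne hG
  have hp : (0 : ℤ) ≤ p := Int.natCast_nonneg p
  -- the condition on orders
  have key : ∀ z : LaurentSeries (ZMod p), z ≠ 0 → (OT (p + 1) τ z ↔
      0 < HahnSeries.order τ + ((p : ℤ) + 1) * HahnSeries.order z) := by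
    intro z hz
    constructor
    · intro ho
      have h2 := Pool.Agent.Y155.UF.bound hR hG hz ho
      rcases h2.lt_or_eq with h3 | h3
      · exact h3
      · exact absurd (by linarith) (Pool.Agent.Y155.UF.good_order hR hG (- HahnSeries.order z))
    · intro ho
      obtain ⟨-, t2⟩ := Pool.Agent.Y155.UF.order_T hτ hz
      have hT : ∀ n : ℤ, n ≤ 0 → (τ * z ^ (p + 1)).coeff n = 0 := by
        intro n hn
        apply HahnSeries.coeff_eq_zero_of_lt_order
        rw [t2]
        omega
      exact hR p (1 + τ * z ^ (p + 1)) (by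
        intro n hn
        rw [Pool.Agent.Y155.UF.coeff_ne hn.ne]
        exact hT n hn.le) (by
        rw [HahnSeries.coeff_add, HahnSeries.coeff_one, if_pos rfl, hT 0 le_rfl, add_zero])
  have hm0 : 0 < HahnSeries.order τ := by
    have h2 := (key 1 one_ne_zero).1 h1
    rw [HahnSeries.order_one] at h2
    linarith
  have hm1 : HahnSeries.order τ < (p : ℤ) + 1 := by
    by_contra hcon
    rw [not_lt] at hcon
    have h3 : (p : ℤ) + 1 < HahnSeries.order τ := by
      rcases hcon.lt_or_eq with h | h
      · exact h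
      · exact absurd (by linarith) (Pool.Agent.Y155.UF.good_order hR hG 1)
    obtain ⟨u, hu⟩ : ∃ u : LaurentSeries (ZMod p), u = HahnSeries.single (-1 : ℤ) (1 : ZMod p) :=
      ⟨_, rfl⟩
    have hu0 : u ≠ 0 := by rw [hu]; exact HahnSeries.single_ne_zero one_ne_zero
    have huo : HahnSeries.order u = -1 := by rw [hu]; exact HahnSeries.order_single one_ne_zero
    have h4 : OT (p + 1) τ u := (key u hu0).2 (by rw [huo]; linarith)
    have h5 : ∀ k : ℕ, OT (p + 1) τ (u ^ k) := by
      intro k
      induction k with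
      | zero => rw [pow_zero]; exact h1
      | succ k ih => rw [pow_succ]; exact hmul _ _ ih h4
    have h6 := (key _ (pow_ne_zero _ hu0)).1 (h5 (HahnSeries.order τ).toNat)
    rw [HahnSeries.order_pow, huo, nsmul_eq_mul] at h6
    have h7 : (((HahnSeries.order τ).toNat : ℕ) : ℤ) = HahnSeries.order τ :=
      Int.toNat_of_nonneg hm0.le
    have h8 : ((HahnSeries.order τ).toNat : ℤ) * (-1) = - HahnSeries.order τ := by
      rw [h7]; ring
    rw [h8] at h6
    have h9 : 0 ≤ (p : ℤ) * HahnSeries.order τ := mul_nonneg hp hm0.le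
    nlinarith
  intro z
  by_cases hz : z = 0
  · subst hz
    refine ⟨fun _ => ⟨0, map_zero _⟩, fun _ => ⟨1, ?_⟩⟩
    rw [one_pow, zero_pow (Nat.succ_ne_zero p), mul_zero, add_zero]
  · rw [key z hz, mem_OO_order hz]
    constructor
    · intro h
      by_contra hcon
      rw [not_le] at hcon
      have h2 : HahnSeries.order z ≤ -1 := by omega
      have h3 : ((p : ℤ) + 1) * HahnSeries.order z ≤ ((p : ℤ) + 1) * (-1) :=
        mul_le_mul_of_nonneg_left h2 (by linarith)
      linarith
    · intro h
      have h3 : 0 ≤ ((p : ℤ) + 1) * HahnSeries.order z := mul_nonneg (by linarith) h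
      linarith

end Pool.Agent.Helper90K9.SO
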