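import Pool.Agent.Helper14K9.SO.St

/-! # Project SO, leaf COD2: coding of all sets of natural numbers (helper90) -/

set_option autoImplicit false

namespace Pool.Agent.Helper90K9.SO

open Pool.Agent.Helper14K9.SO
open Pool.Agent.Y924.UF

theorem cod2 : S_COD2 := by
  classical
  intro p hp lam hlam hlam1 x d hd hx A
  -- scalars
  have hsc : ∀ a : ZMod p, lam (HahnSeries.C a) = a * lam 1 := by
    intro a
    have h1 : (HahnSeries.C a : LaurentSeries (ZMod p)) = a.val • (1 : LaurentSeries (ZMod p)) := by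
      have h2 : (HahnSeries.C a : LaurentSeries (ZMod p)) = HahnSeries.C (a.val • (1 : ZMod p)) := by
        rw [nsmul_eq_mul, mul_one, ZMod.natCast_zmod_val]
      rw [h2, map_nsmul, map_one]
    rw [h1, map_nsmul, nsmul_eq_mul, ZMod.natCast_zmod_val]
  -- leading coefficients
  obtain ⟨u, hu⟩ : ∃ u : ℕ → ZMod p, ∀ n, u n = (x n).coeff (- d n) := ⟨_, fun _ => rfl⟩
  have hu0 : ∀ n, u n ≠ 0 := by
    intro n
    rw [hu, ← (hx n).2]
    exact HahnSeries.coeff_order_eq_zero.not.2 (hx n).1
  have hlow : ∀ n (m : ℤ), m < - d n → (x n).coeff m = 0 := by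
    intro n m hm
    apply HahnSeries.coeff_eq_zero_of_lt_order
    rw [(hx n).2]
    exact hm
  have hlead : ∀ n (ε : ZMod p), lam (HahnSeries.single (d n) ε * x n) = ε * u n * lam 1 := by
    intro n ε
    have h1 : lam (HahnSeries.single (d n) ε * x n - HahnSeries.C (ε * u n)) = 0 := by
      apply hlam
      intro m hm
      rw [HahnSeries.coeff_sub, HahnSeries.coeff_single_mul, HahnSeries.C_apply]
      rcases hm.lt_or_eq with h | h
      · rw [hlow n _ (by linarith), mul_zero, HahnSeries.coeff_single_of_ne h.ne, sub_zero]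
      · subst h
        rw [HahnSeries.coeff_single_same, zero_sub, hu, sub_self]
    rw [map_sub, sub_eq_zero, hsc] at h1
    exact h1
  -- the recursion
  obtain ⟨tg, htg⟩ : ∃ tg : ℕ → ZMod p, ∀ n, tg n = if n ∈ A then 1 else 0 := ⟨_, fun _ => rfl⟩
  obtain ⟨E, hE⟩ : ∃ E : ℕ → LaurentSeries (ZMod p) → ZMod p, ∀ n P,
      E n P = (tg n - lam (P * x n)) * (u n * lam 1)⁻¹ := ⟨_, fun _ _ => rfl⟩
  obtain ⟨P, hP0, hPs⟩ : ∃ P : ℕ → LaurentSeries (ZMod p), P 0 = 0 ∧
      ∀ n, P (n + 1) = P n + HahnSeries.single (d n) (E n (P n)) :=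
    ⟨fun n => Nat.rec 0 (fun n P => P + HahnSeries.single (d n) (E n P)) n, rfl, fun _ => rfl⟩
  have hd0 : ∀ n : ℕ, d 0 + n ≤ d n := by
    intro n
    induction n with
    | zero => simp
    | succ n ih =>
      have := hd (Nat.lt_succ_self n)
      push_cast
      have h2 : d n < d (n + 1) := this
      omega
  -- stability of the coefficients
  have hst : ∀ (m : ℤ) (n k : ℕ), m < d n → (P (n + k)).coeff m = (P n).coeff m := by
    intro m n k hm
    induction k with
    | zero => rfl
    | succ k ih =>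
      rw [← add_assoc, hPs, HahnSeries.coeff_add, ih, HahnSeries.coeff_single_of_ne, add_zero]
      have h2 : d n ≤ d (n + k) := hd.monotone (Nat.le_add_right _ _)
      omega
  have hlow0 : ∀ (n : ℕ) (m : ℤ), m < d 0 → (P n).coeff m = 0 := by
    intro n m hm
    have h1 := hst m 0 n hm
    rw [zero_add, hP0] at h1
    rw [h1]
    rfl
  let f : ℤ → ZMod p := fun m => (P ((m - d 0).toNat + 1)).coeff m
  have hf : BddBelow (Function.support f) := by
    refine ⟨d 0, fun m hm => ?_⟩
    by_contra h1
    push Not at h1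
    exact hm (hlow0 _ m h1)
  obtain ⟨c, hc⟩ : ∃ c : LaurentSeries (ZMod p), ∀ m, c.coeff m = f m :=
    ⟨HahnSeries.ofSuppBddBelow f hf, fun _ => rfl⟩
  have hcP : ∀ (n : ℕ) (m : ℤ), m < d n → (c - P n).coeff m = 0 := by
    intro n m hm
    rw [HahnSeries.coeff_sub, hc, sub_eq_zero]
    show (P ((m - d 0).toNat + 1)).coeff m = (P n).coeff m
    have h1 : m < d ((m - d 0).toNat + 1) := by
      have h2 := hd0 ((m - d 0).toNat + 1)
      push_cast at h2
      have h3 : m - d 0 ≤ (m - d 0).toNat := Int.self_le_toNat _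
      linarith
    rcases le_total n ((m - d 0).toNat + 1) with h | h
    · obtain ⟨k, hk⟩ := Nat.exists_eq_add_of_le h
      rw [hk]
      exact hst m n k hm
    · obtain ⟨k, hk⟩ := Nat.exists_eq_add_of_le h
      rw [hk]
      exact (hst m _ k h1).symm
  refine ⟨c, fun n => ?_⟩
  have hval : lam (c * x n) = tg n := by
    have h1 : c * x n = P n * x n + HahnSeries.single (d n) (E n (P n)) * x n +
        (c - P (n + 1)) * x n := by
      rw [hPs]; ring
    have h2 : lam ((c - P (n + 1)) * x n) = 0 := by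
      apply hlam
      intro m hm
      by_cases h0 : c - P (n + 1) = 0
      · rw [h0, zero_mul]; rfl
      apply HahnSeries.coeff_eq_zero_of_lt_order
      rw [HahnSeries.order_mul h0 (hx n).1, (hx n).2]
      have h3 : d (n + 1) ≤ HahnSeries.order (c - P (n + 1)) := by
        by_contra hcon
        exact HahnSeries.coeff_order_eq_zero.not.2 h0 (hcP (n + 1) _ (not_le.1 hcon))
      have h4 : d n < d (n + 1) := hd (Nat.lt_succ_self n)
      linarith
    have h5 : E n (P n) * u n * lam 1 = tg n - lam (P n * x n) := by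
      rw [hE, mul_assoc, mul_assoc, inv_mul_cancel₀ (mul_ne_zero (hu0 n) hlam1), mul_one]
    rw [h1, map_add, map_add, h2, hlead, h5]
    ring
  rw [hval, htg]
  split_ifs with h
  · simp [h]
  · simp [h]

end Pool.Agent.Helper90K9.SO
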