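import Pool.Agent.Helper14K9.SO.St

/-! # Project SO, leaf ENU: enumeration of a set of order type omega (helper90) -/

set_option autoImplicit false

namespace Pool.Agent.Helper90K9.SO

open Pool.Agent.Helper14K9.SO

theorem enu : S_ENU := by
  classical
  intro K Q d hinj hfin hne hnext
  -- the rank
  obtain ⟨rk, hrk⟩ : ∃ rk : K → ℕ, ∀ g, rk g = {x | x ∈ Q ∧ d x < d g}.ncard := ⟨_, fun _ => rfl⟩
  have hlt : ∀ g ∈ Q, ∀ g' ∈ Q, d g < d g' → rk g < rk g' := by
    intro g hg g' hg' h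
    rw [hrk, hrk]
    refine Set.ncard_lt_ncard ?_ (hfin g' hg')
    refine ⟨fun x hx => ⟨hx.1, hx.2.trans h⟩, fun hsub => ?_⟩
    have h1 : g ∈ {x | x ∈ Q ∧ d x < d g} := hsub ⟨hg, h⟩
    exact lt_irrefl _ h1.2
  have hub : ∀ n : ℕ, ∃ g ∈ Q, n ≤ rk g := by
    intro n
    induction n with
    | zero => obtain ⟨g, hg⟩ := hne; exact ⟨g, hg, Nat.zero_le _⟩
    | succ n ih =>
      obtain ⟨g, hg, h⟩ := ih
      obtain ⟨g', hg', h'⟩ := hnext g hg
      exact ⟨g', hg', by have := hlt g hg g' hg' h'; omega⟩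
  have hex : ∀ n : ℕ, ∃ g ∈ Q, rk g = n := by
    intro n
    -- the least rank at least `n`
    have hP : ∃ m, n ≤ m ∧ ∃ g ∈ Q, rk g = m := by
      obtain ⟨g, hg, h⟩ := hub n
      exact ⟨rk g, h, g, hg, rfl⟩
    obtain ⟨h1, g, hg, h2⟩ := Nat.find_spec hP
    have hmin : ∀ m, n ≤ m → (∃ g ∈ Q, rk g = m) → Nat.find hP ≤ m :=
      fun m ha hb => Nat.find_min' hP ⟨ha, hb⟩
    by_cases h3 : rk g = n
    · exact ⟨g, hg, h3⟩
    exfalso
    have h4 : n < rk g := by omega
    have hF := hfin g hg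
    have hne' : hF.toFinset.Nonempty := by
      rw [hrk, Set.ncard_eq_toFinset_card _ hF] at h4
      exact Finset.card_pos.1 (by omega)
    obtain ⟨x, hx, hmax⟩ := Finset.exists_max_image hF.toFinset d hne'
    rw [Set.Finite.mem_toFinset] at hx
    have h5 : {y | y ∈ Q ∧ d y < d g} = insert x {y | y ∈ Q ∧ d y < d x} := by
      ext y
      constructor
      · intro hy
        have h6 := hmax y (hF.mem_toFinset.2 hy)
        rcases h6.lt_or_eq with h7 | h7
        · exact Or.inr ⟨hy.1, h7⟩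
        · exact Or.inl (hinj hy.1 hx.1 h7)
      · rintro (rfl | hy)
        · exact hx
        · exact ⟨hy.1, hy.2.trans hx.2⟩
    have h6 : rk g = rk x + 1 := by
      rw [hrk g, h5, Set.ncard_insert_of_notMem (fun h => lt_irrefl _ h.2) (hfin x hx.1), hrk]
    have h7 := hmin (rk x) (by omega) ⟨x, hx.1, rfl⟩
    omega
  choose e he1 he2 using hex
  refine ⟨e, he1, fun g hg => ⟨rk g, ?_⟩, strictMono_nat_of_lt_succ fun n => ?_, fun n => ?_⟩
  · have h1 := he2 (rk g)
    rcases lt_trichotomy (d (e (rk g))) (d g) with h | h | h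
    · have := hlt _ (he1 _) _ hg h; omega
    · exact hinj (he1 _) hg h
    · have := hlt _ hg _ (he1 _) h; omega
  · by_contra hcon
    rw [not_lt] at hcon
    rcases hcon.lt_or_eq with h | h
    · have := hlt _ (he1 (n + 1)) _ (he1 n) h
      rw [he2, he2] at this
      omega
    · have h1 := hinj (he1 (n + 1)) (he1 n) h
      have h2 := he2 (n + 1)
      rw [h1, he2] at h2
      omega
  · rw [← hrk, he2]

end Pool.Agent.Helper90K9.SO
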