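import Pool.Agent.Helper90K9.SO.Ball

/-! # Project SO, leaf FULL: the enumeration of the approximations (helper90) -/

set_option autoImplicit false

namespace Pool.Agent.Helper90K9.SO

open Pool.Agent.Helper14K9.SO
open Pool.Agent.Y924.UF

namespace FullL

/-- comparison of orders -/
theorem lt_iff {p : ℕ} [Fact p.Prime] {τ : LaurentSeries (ZMod p)}
    (hB : ∀ z, OT (p + 1) τ z ↔ z ∈ OO p) {x y : LaurentSeries (ZMod p)} (hx : x ≠ 0)
    (hy : y ≠ 0) : Lt p τ x y ↔ HahnSeries.order x < HahnSeries.order y := by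
  unfold Lt
  rw [← not_le, not_iff_not]
  constructor
  · rintro ⟨z, hz, rfl⟩
    rw [hB] at hz
    have hz0 : z ≠ 0 := right_ne_zero_of_mul hx
    rw [HahnSeries.order_mul hy hz0]
    have := (BallL.mem_OO_order hz0).1 hz
    omega
  · intro h
    refine ⟨x * y⁻¹, ?_, by field_simp⟩
    have hz0 : x * y⁻¹ ≠ 0 := mul_ne_zero hx (inv_ne_zero hy)
    rw [hB, BallL.mem_OO_order hz0]
    have h1 : HahnSeries.order (x * y⁻¹ * y) = HahnSeries.order (x * y⁻¹) + HahnSeries.order y :=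
      HahnSeries.order_mul hz0 hy
    rw [inv_mul_cancel_right₀ hy] at h1
    omega

theorem order_inv' {p : ℕ} [Fact p.Prime] {y : LaurentSeries (ZMod p)} (hy : y ≠ 0) :
    HahnSeries.order (y⁻¹) = - HahnSeries.order y := by
  have h1 : HahnSeries.order (y⁻¹ * y) = HahnSeries.order (y⁻¹) + HahnSeries.order y :=
    HahnSeries.order_mul (inv_ne_zero hy) hy
  rw [inv_mul_cancel₀ hy, HahnSeries.order_one] at h1
  omega

end FullL

open FullL

theorem full : S_BALL → S_LAM → S_COD2 → S_ENU → S_FIN2 → S_FULL2 := by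
  intro hBALL hLAM hCOD hENU hFIN p hp S τ s hgood
  obtain ⟨g1, g2, g3, g4, g5, g6, g7, g8, g9⟩ := hgood
  have hB := hBALL p τ g1 g2 g3
  obtain ⟨lam, l1, l2, l3⟩ := hLAM p τ g4 g5
  have hne : ∀ g, InQ p S τ s g → s - g ≠ 0 := fun g hg h => hg.1 (sub_eq_zero.1 h).symm
  have hset : ∀ g, InQ p S τ s g → {x | InX p S τ s g x} =
      {x | x ∈ {g | InQ p S τ s g} ∧ HahnSeries.order (s - x) < HahnSeries.order (s - g)} := by
    intro g hg
    ext x
    constructor
    · rintro ⟨h1, h2⟩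
      exact ⟨h1, (lt_iff hB (hne x h1) (hne g hg)).1 h2⟩
    · rintro ⟨h1, h2⟩
      exact ⟨h1, (lt_iff hB (hne x h1) (hne g hg)).2 h2⟩
  have hfin : ∀ g, InQ p S τ s g → {x | InX p S τ s g x}.Finite := by
    intro g hg
    exact hFIN p τ g1 _ (g7 g hg)
  obtain ⟨e, e1, e2, e3, e4⟩ := hENU (LaurentSeries (ZMod p)) {g | InQ p S τ s g}
    (fun g => HahnSeries.order (s - g)) (by
      intro g hg g' hg' h
      refine g6 g g' hg hg' ?_ ?_
      · rw [lt_iff hB (hne g hg) (hne g' hg')]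
        exact not_lt.2 (le_of_eq h.symm)
      · rw [lt_iff hB (hne g' hg') (hne g hg)]
        exact not_lt.2 (le_of_eq h)) (by
      intro g hg
      rw [← hset g hg]
      exact hfin g hg) g8 (by
      intro g hg
      obtain ⟨g', h1, h2⟩ := g9 g hg
      exact ⟨g', h1, (lt_iff hB (hne g hg) (hne g' h1)).1 h2⟩)
  refine ⟨e, e1, e2, fun n => ⟨hfin _ (e1 n), by rw [hset _ (e1 n)]; exact e4 n⟩, fun A => ?_⟩
  obtain ⟨c, hc⟩ := hCOD p lam l2 l3 (fun n => (s - e n)⁻¹)
    (fun n => HahnSeries.order (s - e n)) e3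
    (fun n => ⟨inv_ne_zero (hne _ (e1 n)), order_inv' (hne _ (e1 n))⟩) A
  refine ⟨c, fun n => ?_⟩
  rw [← hc n]
  have hn := hne _ (e1 n)
  constructor
  · rintro ⟨z, hz, h1⟩
    have h2 : z = c * (s - e n)⁻¹ := by rw [← hz]; field_simp
    rw [← h2]
    exact fun h => h1 ((l1 z).2 h)
  · intro h
    exact ⟨c * (s - e n)⁻¹, by field_simp, fun h1 => h ((l1 _).1 h1)⟩

end Pool.Agent.Helper90K9.SO
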