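import Pool.Agent.Helper14K9.SO.St
import Pool.Agent.Y15.UF.Res

/-! # Project SO, leaf LAM: the linear form of a good element (helper90) -/

set_option autoImplicit false

namespace Pool.Agent.Helper90K9.SO

open Pool.Agent.Helper14K9.SO
open Pool.Agent.Y924.UF

namespace LamL

section

variable {p : ℕ} [hp : Fact p.Prime]

theorem Ex_zero (t : LaurentSeries (ZMod p)) (k : ℕ) : Ex t p k 0 := by
  induction k with
  | zero => exact rfl
  | succ k ih =>
    exact ⟨0, 0, ih, by rw [zero_pow hp.out.ne_zero, mul_zero, add_zero]⟩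

theorem Ex_add (t : LaurentSeries (ZMod p)) (k : ℕ) : ∀ y y' : LaurentSeries (ZMod p),
    Ex t p k y → Ex t p k y' → Ex t p k (y + y') := by
  have := Pool.Agent.Y15.UF.inst_char (p := p)
  induction k with
  | zero =>
    intro y y' h h'
    have h1 : y = 0 := h
    have h2 : y' = 0 := h'
    show y + y' = 0
    rw [h1, h2, add_zero]
  | succ k ih =>
    rintro y y' ⟨w, u, h1, rfl⟩ ⟨w', u', h1', rfl⟩
    exact ⟨w + w', u + u', ih _ _ h1 h1', by rw [add_pow_char]; ring⟩

theorem Ex_neg (t : LaurentSeries (ZMod p)) (k : ℕ) : ∀ y : LaurentSeries (ZMod p),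
    Ex t p k y → Ex t p k (-y) := by
  have := Pool.Agent.Y15.UF.inst_char (p := p)
  induction k with
  | zero =>
    intro y h
    have h1 : y = 0 := h
    show -y = 0
    rw [h1, neg_zero]
  | succ k ih =>
    rintro y ⟨w, u, h1, rfl⟩
    refine ⟨-w, -u, ih _ h1, ?_⟩
    have h2 : (-w) ^ p = - w ^ p := by
      have h3 : (w + -w) ^ p = w ^ p + (-w) ^ p := add_pow_char _ _ _
      rw [add_neg_cancel, zero_pow hp.out.ne_zero] at h3
      exact (neg_eq_of_add_eq_zero_right h3.symm).symm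
    rw [h2]
    ring

/-- the subgroup -/
noncomputable def HG (t : LaurentSeries (ZMod p)) : AddSubgroup (LaurentSeries (ZMod p)) where
  carrier := {z | HH t p z}
  zero_mem' := ⟨0, 0, Ex_zero t _, by rw [zero_pow hp.out.ne_zero, mul_zero, add_zero]⟩
  add_mem' := by
    have := Pool.Agent.Y15.UF.inst_char (p := p)
    rintro z z' ⟨w, u, h1, h2⟩ ⟨w', u', h1', h2'⟩
    refine ⟨w + w', u + u', Ex_add t _ _ _ h1 h1', ?_⟩
    rw [add_pow_char]
    linear_combination h2 + h2'
  neg_mem' := by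
    have := Pool.Agent.Y15.UF.inst_char (p := p)
    rintro z ⟨w, u, h1, h2⟩
    refine ⟨-w, -u, Ex_neg t _ _ h1, ?_⟩
    have h3 : (-w) ^ p = - w ^ p := by
      have h4 : (w + -w) ^ p = w ^ p + (-w) ^ p := add_pow_char _ _ _
      rw [add_neg_cancel, zero_pow hp.out.ne_zero] at h4
      exact (neg_eq_of_add_eq_zero_right h4.symm).symm
    rw [h3]
    linear_combination - h2

theorem mem_HG (t z : LaurentSeries (ZMod p)) : z ∈ HG t ↔ HH t p z := Iff.rfl

/-- the constants -/
theorem const_of {e : LaurentSeries (ZMod p)} (he : e ^ p = e) :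
    ∃ a : ZMod p, HahnSeries.C a = e := by
  have := Pool.Agent.Y15.UF.inst_char (p := p)
  -- all coefficients of nonzero degree vanish
  have hp1 : (1 : ℤ) < p := by exact_mod_cast hp.out.one_lt
  refine ⟨e.coeff 0, ?_⟩
  have h0 : ∀ n : ℤ, n ≠ 0 → e.coeff n = 0 := by
    intro n hn
    obtain ⟨N, hN⟩ : ∃ N : ℕ, n.natAbs = N := ⟨_, rfl⟩
    induction N using Nat.strong_induction_on generalizing n with
    | _ N ih =>
      have h1 := Pool.Agent.Y15.UF.coeff_pow e n
      rw [he] at h1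
      rw [h1]
      split_ifs with h2
      · obtain ⟨m, rfl⟩ := h2
        rw [Int.mul_ediv_cancel_left _ (by omega)]
        have hm : m ≠ 0 := by rintro rfl; exact hn (mul_zero _)
        refine ih m.natAbs ?_ m hm rfl
        rw [← hN, Int.natAbs_mul]
        have h3 : 0 < m.natAbs := Int.natAbs_pos.2 hm
        have h4 : 2 ≤ (p : ℤ).natAbs := by rw [Int.natAbs_natCast]; exact hp.out.two_le
        nlinarith
      · rfl
  ext n
  by_cases hn : n = 0
  · subst hn
    rw [HahnSeries.C_apply, HahnSeries.coeff_single_same]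
  · rw [h0 n hn, HahnSeries.C_apply, HahnSeries.coeff_single_of_ne hn]

/-- Artin-Schreier: the positive part -/
theorem exists_pos (a : ℕ → ZMod p) : ∃ V : ℕ → ZMod p, ∀ n, 0 < n →
    (p ∣ n → V (n / p) = a n + V n) ∧ (¬ p ∣ n → 0 = a n + V n) := by
  have hp0 : 0 < p := hp.out.pos
  have hp2 : 1 < p := hp.out.one_lt
  obtain ⟨U, hU⟩ : ∃ U : ℕ → ℕ → ZMod p, ∀ s n, U (s + 1) n =
      if p ∣ n ∧ 0 < n then U s (n / p) - a n else - a n := by
    refine ⟨fun s => Nat.rec (fun _ => 0) (fun _ f n => if p ∣ n ∧ 0 < n then f (n / p) - a n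
      else - a n) s, fun s n => rfl⟩
  have hfuel : ∀ n s s', n < s → n < s' → U s n = U s' n := by
    intro n
    induction n using Nat.strong_induction_on with
    | _ n ih =>
      intro s s' hs hs'
      obtain ⟨s, rfl⟩ : ∃ r, s = r + 1 := ⟨s - 1, by omega⟩
      obtain ⟨s', rfl⟩ : ∃ r, s' = r + 1 := ⟨s' - 1, by omega⟩
      rw [hU, hU]
      by_cases h1 : p ∣ n ∧ 0 < n
      · rw [if_pos h1, if_pos h1]
        have h2 : n / p < n := Nat.div_lt_self h1.2 hp2
        rw [ih _ h2 s s' (by omega) (by omega)]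
      · rw [if_neg h1, if_neg h1]
  refine ⟨fun n => U (n + 1) n, fun n hn => ⟨fun hd => ?_, fun hd => ?_⟩⟩
  · simp only
    have h2 : n / p < n := Nat.div_lt_self hn hp2
    rw [hU n n, if_pos ⟨hd, hn⟩, hfuel (n / p) (n / p + 1) n (by omega) h2]
    ring
  · simp only
    rw [hU n n, if_neg (fun h => hd h.1)]
    ring

/-- Artin-Schreier in the maximal ideal -/
theorem artin (z : LaurentSeries (ZMod p)) (hz : ∀ n : ℤ, n ≤ 0 → z.coeff n = 0) :
    ∃ w : LaurentSeries (ZMod p), w ^ p = z + w := by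
  have hp0 : 0 < p := hp.out.pos
  have hp1 : (0 : ℤ) < p := by exact_mod_cast hp0
  obtain ⟨V, hV⟩ := exists_pos (p := p) (fun n => z.coeff (n : ℤ))
  let f : ℤ → ZMod p := fun m => if 0 < m then V m.toNat else 0
  have hfp : ∀ m : ℤ, 0 < m → f m = V m.toNat := fun m hm => if_pos hm
  have hfn : ∀ m : ℤ, m ≤ 0 → f m = 0 := fun m hm => if_neg (by omega)
  have hf : BddBelow (Function.support f) := by
    refine ⟨0, fun m hm => ?_⟩
    by_contra h1
    push Not at h1
    exact hm (hfn m h1.le)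
  refine ⟨HahnSeries.ofSuppBddBelow f hf, ?_⟩
  ext n
  rw [Pool.Agent.Y15.UF.coeff_pow, HahnSeries.coeff_add]
  show (if (p : ℤ) ∣ n then f (n / p) else 0) = z.coeff n + f n
  rcases le_or_gt n 0 with h | h
  · rw [hz n h, hfn n h, add_zero]
    split_ifs with h1
    · refine hfn _ ?_
      have h2 : n / p ≤ 0 / p := Int.ediv_le_ediv hp1 h
      simpa using h2
    · rfl
  · obtain ⟨m, rfl⟩ : ∃ m : ℕ, n = (m : ℤ) := ⟨n.toNat, by omega⟩
    have hm0 : 0 < m := by omega
    obtain ⟨h1, h2⟩ := hV m hm0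
    rw [hfp _ h, Int.toNat_natCast]
    by_cases h3 : p ∣ m
    · rw [if_pos (by exact_mod_cast h3), ← h1 h3]
      have h4 : (0 : ℤ) < (m : ℤ) / p := by
        obtain ⟨j, rfl⟩ := h3
        have hj : 0 < j := Nat.pos_of_mul_pos_left hm0
        push_cast
        rw [Int.mul_ediv_cancel_left _ hp1.ne']
        exact_mod_cast hj
      rw [hfp _ h4]
      congr 1
    · rw [if_neg (by exact_mod_cast h3)]
      exact h2 h3

end

end LamL

open LamL

theorem lam : S_LAM := by
  intro p hp τ h1 h2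
  have := Pool.Agent.Y15.UF.inst_char (p := p)
  have hC : ∀ z : LaurentSeries (ZMod p), ∃ a : ZMod p, z - HahnSeries.C a ∈ HG τ := by
    intro z
    obtain ⟨e, he, h3⟩ := h2 z
    obtain ⟨a, rfl⟩ := const_of he
    exact ⟨-a, by rw [map_neg, sub_neg_eq_add]; exact h3⟩
  have hnat : ∀ (a : ZMod p) (n : ℕ), n • (HahnSeries.C a : LaurentSeries (ZMod p)) =
      HahnSeries.C ((n : ZMod p) * a) := by
    intro a n
    rw [← nsmul_eq_mul, map_nsmul]
  have huniq : ∀ a : ZMod p, (HahnSeries.C a : LaurentSeries (ZMod p)) ∈ HG τ → a = 0 := by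
    intro a ha
    by_contra hne
    apply h1
    have h3 := (HG τ).nsmul_mem ha (a⁻¹).val
    rw [hnat, ZMod.natCast_zmod_val, inv_mul_cancel₀ hne, map_one] at h3
    exact h3
  choose l hl using hC
  have hadd : ∀ z z', l (z + z') = l z + l z' := by
    intro z z'
    have h3 : (HahnSeries.C (l (z + z') - (l z + l z')) : LaurentSeries (ZMod p)) ∈ HG τ := by
      have h4 := (HG τ).sub_mem ((HG τ).add_mem (hl z) (hl z')) (hl (z + z'))
      have h5 : (HahnSeries.C (l (z + z') - (l z + l z')) : LaurentSeries (ZMod p)) =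
          z - HahnSeries.C (l z) + (z' - HahnSeries.C (l z')) -
            (z + z' - HahnSeries.C (l (z + z'))) := by
        rw [map_sub, map_add]; ring
      rw [h5]
      exact h4
    exact sub_eq_zero.1 (huniq _ h3)
  refine ⟨AddMonoidHom.mk' l hadd, ?_, ?_, ?_⟩
  · intro z
    rw [AddMonoidHom.mk'_apply]
    constructor
    · intro h
      have h3 := (HG τ).sub_mem ((mem_HG τ z).2 h) (hl z)
      rw [sub_sub_cancel] at h3
      exact huniq _ h3
    · intro h
      have h3 := hl z
      rw [h, map_zero, sub_zero] at h3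
      exact h3
  · intro z hz
    rw [AddMonoidHom.mk'_apply]
    obtain ⟨w, hw⟩ := artin z hz
    have h3 : z ∈ HG τ := ⟨w, 0, Ex_zero τ _, by rw [mul_zero, add_zero]; exact hw⟩
    have h4 := (HG τ).sub_mem h3 (hl z)
    rw [sub_sub_cancel] at h4
    exact huniq _ h4
  · rw [AddMonoidHom.mk'_apply]
    intro h
    have h3 := hl 1
    rw [h, map_zero, sub_zero] at h3
    exact h1 h3

end Pool.Agent.Helper90K9.SO
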